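import Pool.Agent.Helper58.QD.StL

/-!
# Project QD, module Det: determinants of quadratic forms
-/

set_option autoImplicit false

open Helper62.LH Helper62.DSH Helper58.QD MeasureTheory Set Filter Topology
open scoped ContDiff ENNReal

noncomputable section

namespace Pool.Agent.Helper51.QD

open Matrix in
theorem qf_eq {M : ℕ} (S : Fin M → Fin M → ℝ) (c : Fin M → ℝ) :
    qf S c = c ⬝ᵥ (Matrix.of S *ᵥ c) := by
  simp only [qf, dotProduct, mulVec, Matrix.of_apply, Finset.mul_sum]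
  refine Finset.sum_congr rfl fun i _ => Finset.sum_congr rfl fun j _ => by ring

theorem herm {M : ℕ} {S : Fin M → Fin M → ℝ} (h : Sy S) : (Matrix.of S).IsHermitian := by
  ext i j
  simp [Matrix.conjTranspose_apply, h i j]

open Matrix in
theorem psd {M : ℕ} {S : Fin M → Fin M → ℝ} (h : Sy S) (h0 : ∀ c, 0 ≤ qf S c) :
    (Matrix.of S).PosSemidef := by
  refine PosSemidef.of_dotProduct_mulVec_nonneg (herm h) fun c => ?_
  rw [star_trivial, ← qf_eq]
  exact h0 c

open Matrix in
theorem pd {M : ℕ} {S : Fin M → Fin M → ℝ} (h : Sy S) (h0 : ∀ c, c ≠ 0 → 0 < qf S c) :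
    (Matrix.of S).PosDef := by
  refine PosDef.of_dotProduct_mulVec_pos (herm h) fun c hc => ?_
  rw [star_trivial, ← qf_eq]
  exact h0 c hc

open Matrix in
theorem pd_pos {M : ℕ} {S : Fin M → Fin M → ℝ} (h : (Matrix.of S).PosDef) (c : Fin M → ℝ)
    (hc : c ≠ 0) : 0 < qf S c := by
  have := h.dotProduct_mulVec_pos hc
  rw [star_trivial, ← qf_eq] at this
  exact this

/-- the eigenvalue is the value of the form at a unit vector -/
theorem eig {M : ℕ} {A : Matrix (Fin M) (Fin M) ℝ} (hA : A.IsHermitian) (i : Fin M) :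
    ∃ c : Fin M → ℝ, ∑ k, c k ^ 2 = 1 ∧ hA.eigenvalues i = qf (fun a b => A a b) c := by
  refine ⟨fun k => hA.eigenvectorBasis i k, ?_, ?_⟩
  · have h1 : ‖hA.eigenvectorBasis i‖ = 1 := hA.eigenvectorBasis.orthonormal.1 i
    have h2 := EuclideanSpace.real_norm_sq_eq (hA.eigenvectorBasis i)
    rw [h1] at h2
    rw [← h2]
    norm_num
  · rw [hA.eigenvalues_eq i, qf_eq]
    simp only [RCLike.re_to_real, star_trivial]
    rfl

/-- congruence to the identity -/
theorem cong {M : ℕ} {A : Matrix (Fin M) (Fin M) ℝ} (hA : A.PosDef) :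
    ∃ P : Matrix (Fin M) (Fin M) ℝ, P * A * P.transpose = 1 := by
  obtain ⟨B, hB⟩ : ∃ B : Matrix (Fin M) (Fin M) ℝ, A = B.transpose * B := by
    open scoped MatrixOrder in
    obtain ⟨B, hB⟩ := CStarAlgebra.nonneg_iff_eq_star_mul_self.mp hA.posSemidef.nonneg
    refine ⟨B, ?_⟩
    rw [hB, Matrix.star_eq_conjTranspose, Matrix.conjTranspose_eq_transpose_of_trivial]
  have hdet : IsUnit B.det := by
    have h1 : 0 < A.det := hA.det_pos
    rw [hB, Matrix.det_mul, Matrix.det_transpose] at h1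
    refine isUnit_iff_ne_zero.mpr fun h0 => ?_
    rw [h0] at h1
    simp at h1
  refine ⟨(B⁻¹).transpose, ?_⟩
  rw [Matrix.transpose_transpose, hB, Matrix.transpose_nonsing_inv, ← mul_assoc,
    Matrix.nonsing_inv_mul _ (by rwa [Matrix.det_transpose]), one_mul,
    Matrix.mul_nonsing_inv _ hdet]

/-- value of the congruent form -/
theorem qf_cong {M : ℕ} (P : Matrix (Fin M) (Fin M) ℝ) (S : Fin M → Fin M → ℝ)
    (c : Fin M → ℝ) :
    qf (fun a b => (P * Matrix.of S * P.transpose) a b) c = qf S (Matrix.mulVec P.transpose c) := by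
  have h : (Matrix.of fun a b => (P * Matrix.of S * P.transpose) a b) =
      P * Matrix.of S * P.transpose := rfl
  rw [qf_eq, qf_eq, h, ← Matrix.mulVec_mulVec, ← Matrix.mulVec_mulVec, Matrix.dotProduct_mulVec,
    Matrix.mulVec_transpose, Matrix.dotProduct_mulVec]

theorem sum_sq {M : ℕ} {S' : Fin M → Fin M → ℝ} {P : Matrix (Fin M) (Fin M) ℝ}
    (h : P * Matrix.of S' * P.transpose = 1) (c : Fin M → ℝ) :
    qf S' (Matrix.mulVec P.transpose c) = ∑ i, c i ^ 2 := by
  rw [← qf_cong, h]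
  simp only [qf, Matrix.one_apply]
  refine Finset.sum_congr rfl fun i _ => ?_
  rw [Finset.sum_eq_single i]
  · simp [sq]
  · intro j _ hj
    simp [hj.symm]
  · intro hi
    exact absurd (Finset.mem_univ i) hi

theorem det_cong {M : ℕ} {S' : Fin M → Fin M → ℝ} {P : Matrix (Fin M) (Fin M) ℝ}
    (h : P * Matrix.of S' * P.transpose = 1) : P.det ^ 2 * (Matrix.of S').det = 1 := by
  have h1 := congrArg Matrix.det h
  rw [Matrix.det_mul, Matrix.det_mul, Matrix.det_transpose, Matrix.det_one] at h1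
  linarith

theorem hermB {M : ℕ} {S : Fin M → Fin M → ℝ} (h : Sy S) (P : Matrix (Fin M) (Fin M) ℝ) :
    (P * Matrix.of S * P.transpose).IsHermitian := by
  have h1 := herm h
  unfold Matrix.IsHermitian at h1 ⊢
  rw [Matrix.conjTranspose_eq_transpose_of_trivial] at h1 ⊢
  rw [Matrix.transpose_mul, Matrix.transpose_mul, Matrix.transpose_transpose, h1, mul_assoc]

/-- the monotonicity of the determinant -/
theorem det_mono {M : ℕ} (S S' : Fin M → Fin M → ℝ) (hS : Sy S) (hS' : Sy S')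
    (h0 : ∀ c, 0 ≤ qf S c) (h1 : ∀ c, qf S c ≤ qf S' c) :
    (Matrix.of S).det ≤ (Matrix.of S').det := by
  have hp := psd hS h0
  have hp' := psd hS' (fun c => le_trans (h0 c) (h1 c))
  by_cases hd : (Matrix.of S).det = 0
  · rw [hd]
    exact hp'.det_nonneg
  have hpd : (Matrix.of S).PosDef := hp.posDef_iff_det_ne_zero.mpr hd
  have hpd' : (Matrix.of S').PosDef :=
    pd hS' fun c hc => lt_of_lt_of_le (pd_pos hpd c hc) (h1 c)
  obtain ⟨P, hP⟩ := cong hpd'
  have hB := hermB hS P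
  have hdet : (P * Matrix.of S * P.transpose).det ≤ 1 := by
    rw [hB.det_eq_prod_eigenvalues]
    refine Finset.prod_le_one ?_ ?_
    · intro i _
      obtain ⟨c, hc, he⟩ := eig hB i
      rw [he, qf_cong]
      exact h0 _
    · intro i _
      obtain ⟨c, hc, he⟩ := eig hB i
      rw [he, qf_cong]
      refine le_trans (h1 _) ?_
      rw [sum_sq hP, hc]
  have h2 := det_cong hP
  rw [Matrix.det_mul, Matrix.det_mul, Matrix.det_transpose] at hdet
  have h3 : 0 < (Matrix.of S').det := hpd'.det_pos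
  have h4 : P.det ^ 2 * (Matrix.of S).det ≤ P.det ^ 2 * (Matrix.of S').det := by
    rw [h2]
    linarith
  have h5 : 0 < P.det ^ 2 := by
    by_contra hc
    have h6 : P.det ^ 2 = 0 := le_antisymm (not_lt.mp hc) (sq_nonneg _)
    rw [h6] at h2
    simp at h2
  exact le_of_mul_le_mul_left h4 h5

theorem det_tr {M : ℕ} (S S' : Fin M → Fin M → ℝ) (K : ℝ) (hM : 1 ≤ M) (hK : 0 < K) (hS : Sy S)
    (hS' : Sy S') (h0 : ∀ c, 0 ≤ qf S c) (h1 : ∀ c, c ≠ 0 → 0 < qf S' c)
    (hd : (Matrix.of S').det ≤ K ^ M * (Matrix.of S).det) :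
    ∃ e : Fin M → Fin M → ℝ,
      (∀ a b, ∑ k, ∑ l, e a k * S' k l * e b l = if a = b then 1 else 0) ∧
      M / K ≤ ∑ a, qf S (e a) := by
  obtain ⟨P, hP⟩ := cong (pd hS' h1)
  have hent : ∀ (T : Fin M → Fin M → ℝ) (a b : Fin M),
      (P * Matrix.of T * P.transpose) a b = ∑ k, ∑ l, P a k * T k l * P b l := by
    intro T a b
    simp only [Matrix.mul_apply, Matrix.transpose_apply, Matrix.of_apply, Finset.sum_mul]
    rw [Finset.sum_comm]
  refine ⟨fun a k => P a k, ?_, ?_⟩
  · intro a b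
    rw [← hent, hP, Matrix.one_apply]
  have hB := hermB hS P
  have htr : ∑ a, qf S (fun k => P a k) = ∑ i, hB.eigenvalues i := by
    have h2 := hB.trace_eq_sum_eigenvalues
    simp only [RCLike.ofReal_real_eq_id, id_eq] at h2
    rw [← h2, Matrix.trace]
    refine Finset.sum_congr rfl fun a _ => ?_
    rw [Matrix.diag_apply, hent]
    rfl
  rw [htr]
  have hnn : ∀ i, 0 ≤ hB.eigenvalues i := by
    intro i
    obtain ⟨c, hc, he⟩ := eig hB i
    rw [he, qf_cong]
    exact h0 _
  have hdet : (P * Matrix.of S * P.transpose).det = ∏ i, hB.eigenvalues i := by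
    have h2 := hB.det_eq_prod_eigenvalues
    simpa using h2
  have hlow : 1 / K ^ M ≤ ∏ i, hB.eigenvalues i := by
    rw [← hdet, Matrix.det_mul, Matrix.det_mul, Matrix.det_transpose,
      div_le_iff₀ (pow_pos hK M)]
    have h2 := det_cong hP
    have h3 : P.det ^ 2 * (Matrix.of S').det ≤ P.det ^ 2 * (K ^ M * (Matrix.of S).det) :=
      mul_le_mul_of_nonneg_left hd (sq_nonneg _)
    nlinarith
  have hMr : (0 : ℝ) < M := by exact_mod_cast hM
  have ham := Real.geom_mean_le_arith_mean_weighted (s := Finset.univ)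
    (fun _ : Fin M => (1 : ℝ) / M) (fun i => hB.eigenvalues i) (fun i _ => by positivity)
    (by simp; field_simp) (fun i _ => hnn i)
  rw [Real.finsetProd_rpow _ _ (fun i _ => hnn i), ← Finset.mul_sum] at ham
  have h3 : 1 / K ≤ (∏ i, hB.eigenvalues i) ^ ((1 : ℝ) / M) := by
    have h4 : 1 / K = (1 / K ^ M) ^ ((1 : ℝ) / M) := by
      rw [show 1 / K ^ M = (1 / K) ^ M by rw [div_pow, one_pow], ← Real.rpow_natCast,
        ← Real.rpow_mul (by positivity)]
      rw [mul_one_div_cancel hMr.ne', Real.rpow_one]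
    rw [h4]
    exact Real.rpow_le_rpow (by positivity) hlow (by positivity)
  have h5 := le_trans h3 ham
  rw [div_le_iff₀ hK] at h5 ⊢
  have h6 : (1 / (M : ℝ)) * (∑ i, hB.eigenvalues i) * K * M = (∑ i, hB.eigenvalues i) * K := by
    field_simp
  nlinarith

theorem hDet : SDet := by
  intro M
  refine ⟨fun S S' hS hS' h0 h1 => det_mono S S' hS hS' h0 h1,
    fun S S' K hM hK hS hS' h0 h1 hd => det_tr S S' K hM hK hS hS' h0 h1 hd, ?_⟩
  intro S hS h1
  have hB := herm hS
  rw [hB.det_eq_prod_eigenvalues]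
  have h2 : ∀ i, 1 ≤ hB.eigenvalues i := by
    intro i
    obtain ⟨c, hc, he⟩ := eig hB i
    rw [he, ← hc]
    exact h1 c
  have h3 : (∏ _i : Fin M, (1 : ℝ)) ≤ ∏ i, hB.eigenvalues i :=
    Finset.prod_le_prod (fun i _ => zero_le_one) (fun i _ => h2 i)
  simpa using h3

end Pool.Agent.Helper51.QD
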